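import Pool.Agent.H14.LNil

set_option autoImplicit false
set_option maxHeartbeats 400000

open Pool.Agent.H14.LNil

attribute [local instance 100] LieRing.ofAssociativeRing

namespace Pool.Agent.Results.MP_776ebc_al.NotNil

theorem result (K : Type) [Field K] (n : ℕ) (hn : 3 ≤ n) :
    FreeAlgebra.ι K (0 : Fin 2) ^ (n - 1) * FreeAlgebra.ι K (1 : Fin 2) ^ (n - 1) ∉
      TwoSidedIdeal.span {w : FreeAlgebra K (Fin 2) |
        ∃ U ∈ LieSubalgebra.lieSpan K (FreeAlgebra K (Fin 2))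
          {FreeAlgebra.ι K (0 : Fin 2), FreeAlgebra.ι K (1 : Fin 2)}, w = U ^ n} := by
  obtain ⟨k, rfl⟩ : ∃ k, n = k + 2 := ⟨n - 2, by omega⟩
  obtain ⟨R, _, _, l, r, h1, h2, h3⟩ := ring_ex K k
  let φ : FreeAlgebra K (Fin 2) →ₐ[K] Matrix (Fin 2) (Fin 2) R :=
    FreeAlgebra.lift K ![!![l, 0; 0, r], !![l, 1; 0, r]]
  have e0 : φ (FreeAlgebra.ι K 0) = !![l, 0; 0, r] := by simp [φ]
  have e1 : φ (FreeAlgebra.ι K 1) = !![l, 1; 0, r] := by simp [φ]
  let P : LieSubalgebra K (FreeAlgebra K (Fin 2)) :=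
    { carrier := {u | ∃ a w : R, φ u = !![a * l, w; 0, a * r]}
      add_mem' := by
        rintro u v ⟨a, w, hu⟩ ⟨b, z, hv⟩
        refine ⟨a + b, w + z, ?_⟩
        rw [map_add, hu, hv]
        ext i j; fin_cases i <;> fin_cases j <;> simp [add_mul]
      zero_mem' := ⟨0, 0, by rw [map_zero]; ext i j; fin_cases i <;> fin_cases j <;> simp⟩
      smul_mem' := by
        rintro c u ⟨a, w, hu⟩
        refine ⟨c • a, c • w, ?_⟩
        rw [map_smul, hu]
        ext i j; fin_cases i <;> fin_cases j <;> simp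
      lie_mem' := by
        rintro u v ⟨a, w, hu⟩ ⟨b, z, hv⟩
        refine ⟨0, a * l * z + w * (b * r) - (b * l * w + z * (a * r)), ?_⟩
        rw [Ring.lie_def, map_sub, map_mul, map_mul, hu, hv, Matrix.mul_fin_two, Matrix.mul_fin_two]
        ext i j; fin_cases i <;> fin_cases j <;> simp <;> ring }
  have hP : LieSubalgebra.lieSpan K (FreeAlgebra K (Fin 2))
      {FreeAlgebra.ι K (0 : Fin 2), FreeAlgebra.ι K (1 : Fin 2)} ≤ P := by
    rw [LieSubalgebra.lieSpan_le]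
    rintro u (rfl | rfl)
    · exact ⟨1, 0, by rw [e0, one_mul, one_mul]⟩
    · exact ⟨1, 1, by rw [e1, one_mul, one_mul]⟩
  intro hmem
  have hk : TwoSidedIdeal.span {w : FreeAlgebra K (Fin 2) |
        ∃ U ∈ LieSubalgebra.lieSpan K (FreeAlgebra K (Fin 2))
          {FreeAlgebra.ι K (0 : Fin 2), FreeAlgebra.ι K (1 : Fin 2)}, w = U ^ (k + 2)} ≤
      TwoSidedIdeal.ker φ := by
    rw [TwoSidedIdeal.span_le]
    rintro _ ⟨U, hU, rfl⟩
    obtain ⟨a, w, hu⟩ := hP hU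
    have h4 : r ^ (k + 2) = 0 := by rw [hh_pow l r, h1, h2]; simp
    rw [SetLike.mem_coe, TwoSidedIdeal.mem_ker, map_pow, hu, mpow, hh_mul, h2, mul_pow, mul_pow,
      h1, h4]
    ext i j; fin_cases i <;> fin_cases j <;> simp
  have := (TwoSidedIdeal.mem_ker φ).1 (hk hmem)
  rw [map_mul, map_pow, map_pow, e0, e1, mpow, mpow, Matrix.mul_fin_two] at this
  apply h3
  have h5 := congrFun (congrFun this 0) 1
  simpa using h5

end Pool.Agent.Results.MP_776ebc_al.NotNil
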